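import Mathlib

set_option autoImplicit false

namespace Pool.Agent.Results.MP_14365a_gt.BetaN
open Set Filter Topology

/-- Functions continuous on a dense open set. -/
def T1 (X : Type) [TopologicalSpace X] : Set (X → ℝ) :=
  {f | ∃ U : Set X, IsOpen U ∧ Dense U ∧ ContinuousOn f U}

/-- Functions continuous on a dense cozero set. -/
def T2 (X : Type) [TopologicalSpace X] : Set (X → ℝ) :=
  {f | ∃ h : C(X, ℝ), Dense (h ⁻¹' {0})ᶜ ∧ ContinuousOn f (h ⁻¹' {0})ᶜ}

/-- Every closed set is a zero set. -/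
def PerfNormal (X : Type) [TopologicalSpace X] : Prop :=
  ∀ F : Set X, IsClosed F → ∃ h : C(X, ℝ), F = h ⁻¹' {0}

noncomputable def a (n : ℕ) : Icc (0 : ℝ) 1 :=
  ⟨1 / ((n : ℝ) + 1), by positivity, by
    rw [div_le_one (by positivity)]; linarith [n.cast_nonneg (α := ℝ)]⟩

noncomputable def h0 : C(Ultrafilter ℕ, ℝ) :=
  ⟨Subtype.val ∘ Ultrafilter.extend a,
    continuous_subtype_val.comp (continuous_ultrafilter_extend a)⟩

theorem lim_eq (h : C(Ultrafilter ℕ, ℝ)) (u : Ultrafilter ℕ) :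
    Tendsto (fun n => h (pure n)) u (𝓝 (h u)) :=
  (h.continuous.tendsto u).comp u.tendsto_pure_self

theorem h0_pure (n : ℕ) : h0 (pure n) = 1 / ((n : ℝ) + 1) := by
  show ((Ultrafilter.extend a (pure n) : Icc (0 : ℝ) 1) : ℝ) = _
  rw [show Ultrafilter.extend a (pure n) = a n from congrFun (ultrafilter_extend_extends a) n]
  rfl

theorem coz : (h0 ⁻¹' {0})ᶜ = range pure := by
  ext u
  constructor
  · intro hu
    rcases u.le_cofinite_or_eq_pure with h | ⟨n, rfl⟩
    · refine absurd (tendsto_nhds_unique (lim_eq h0 u) ?_) hu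
      simp only [h0_pure]
      exact tendsto_one_div_add_atTop_nhds_zero_nat.mono_left (Nat.cofinite_eq_atTop ▸ h)
    · exact ⟨n, rfl⟩
  · rintro ⟨n, rfl⟩ h
    have : h0 (pure n) = 0 := h
    rw [h0_pure] at this
    exact absurd this (by positivity)

theorem all_T2 (f : Ultrafilter ℕ → ℝ) : f ∈ T2 (Ultrafilter ℕ) := by
  refine ⟨h0, coz ▸ denseRange_pure, ?_⟩
  rw [coz]
  rintro _ ⟨n, rfl⟩
  have h1 : IsOpen {u : Ultrafilter ℕ | {n} ∈ u} := ultrafilter_isOpen_basic _
  refine ContinuousAt.continuousWithinAt (tendsto_const_nhds.congr' ?_)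
  filter_upwards [h1.mem_nhds (show ({n} : Set ℕ) ∈ (pure n : Ultrafilter ℕ) from rfl)] with u hu
  obtain ⟨m, hm, rfl⟩ := Ultrafilter.eq_pure_of_finite_mem (finite_singleton n) hu
  rw [show m = n from hm]

theorem not_perf : ¬ PerfNormal (Ultrafilter ℕ) := by
  intro H
  obtain ⟨h, hh⟩ := H {hyperfilter ℕ} isClosed_singleton
  have h1 : Tendsto (fun n => h (pure n)) (hyperfilter ℕ) (𝓝 0) := by
    have : h (hyperfilter ℕ) = 0 := hh.le rfl
    exact this ▸ lim_eq h _
  have h2 : MapClusterPt (0 : ℝ) atTop fun n : ℕ => h (pure n) :=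
    h1.mapClusterPt.mono (Nat.hyperfilter_le_atTop)
  obtain ⟨ψ, hψ, hlim⟩ := h2.tendsto_subseq
  have key : ∀ r : ℕ, range (fun k => ψ (2 * k + r)) ∈ hyperfilter ℕ := by
    intro r
    have h3 : h ((hyperfilter ℕ).map fun k => ψ (2 * k + r)) = 0 := by
      refine tendsto_nhds_unique (lim_eq h _) ?_
      rw [Ultrafilter.coe_map, tendsto_map'_iff]
      refine (hlim.comp (tendsto_atTop_mono (f := id) (fun k => ?_) tendsto_id)).mono_left
        Nat.hyperfilter_le_atTop
      show k ≤ 2 * k + r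
      omega
    have h4 : ((hyperfilter ℕ).map fun k => ψ (2 * k + r)) = hyperfilter ℕ := hh.ge h3
    rw [← h4]
    exact range_mem_map
  obtain ⟨_, ⟨k, rfl⟩, l, hl⟩ := Ultrafilter.nonempty_of_mem (inter_mem (key 0) (key 1))
  have := hψ.injective hl
  omega

theorem result : ∃ (X : Type) (_ : TopologicalSpace X),
    CompactSpace X ∧ T2Space X ∧ ¬ PerfNormal X ∧ T1 X = T2 X :=
  ⟨Ultrafilter ℕ, inferInstance, inferInstance, inferInstance, not_perf,
    Subset.antisymm (fun f _ => all_T2 f) fun _ ⟨h, h1, h2⟩ =>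
      ⟨_, (isClosed_singleton.preimage h.continuous).isOpen_compl, h1, h2⟩⟩

end Pool.Agent.Results.MP_14365a_gt.BetaN
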